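import Mathlib

/-!
# MP_6c6cee_co : a gap in the sizes of flat maximal antichains

`S(7,3)` contains `14` but not `15`, while `T(7,3) = 29`.
-/

set_option autoImplicit false

open Finset

namespace Pool.Agent.Results.MP_6c6cee_co.FlatAntichainGap

/-- `S(n,l)`: the sizes of the maximal antichains of the Boolean lattice `B_n` that are contained
in the levels `l` and `l + 1`. -/
def S (n l : ℕ) : Set ℕ :=
  {m | ∃ 𝒜 : Finset (Finset (Fin n)), 𝒜.card = m ∧ (∀ X ∈ 𝒜, X.card = l ∨ X.card = l + 1) ∧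
    IsMaxAntichain (· ⊆ ·) (𝒜 : Set (Finset (Fin n)))}

/-- `T(n,l) = C(n,l+1) - (n-l-1) ⌈(n-l)/2⌉`. -/
def T (n l : ℕ) : ℤ :=
  (n.choose (l + 1) : ℤ) - ((n : ℤ) - l - 1) * ⌈((n : ℚ) - l) / 2⌉

/-! ### No family with 7 triples and 8 quadruples -/

theorem sup4 : ∀ A : Finset (Fin 7), A.card = 3 →
    (∑ B ∈ powersetCard 4 univ, if A ⊆ B then 1 else 0) = 4 := by decide +kernel

theorem card4 : (powersetCard 4 (univ : Finset (Fin 7))).card = 35 := by decide +kernel

theorem two_of : ∀ A : Finset (Fin 7), A.card = 3 → ∀ z : Fin 7,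
    (∑ v ∈ univ.erase z, if z ∈ A ∧ v ∈ A then 1 else 0) = if z ∈ A then 2 else 0 := by
  decide +kernel

theorem three_of : ∀ A : Finset (Fin 7), A.card = 3 →
    (∑ z, if z ∈ A then 2 else 0) = 6 := by
  decide +kernel

/-- The number of members of `U` that contain both `a` and `b`. -/
def lam (U : Finset (Finset (Fin 7))) (a b : Fin 7) : ℕ := (U.filter fun A => a ∈ A ∧ b ∈ A).card

theorem lam_comm (U : Finset (Finset (Fin 7))) (a b : Fin 7) : lam U a b = lam U b a := by
  unfold lam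
  congr 1
  ext A
  simp only [mem_filter]
  tauto

theorem row (U : Finset (Finset (Fin 7))) (hU : ∀ A ∈ U, A.card = 3) (z : Fin 7) :
    ∑ v ∈ univ.erase z, lam U z v = ∑ A ∈ U, if z ∈ A then 2 else 0 := by
  unfold lam
  simp only [card_filter]
  rw [sum_comm]
  exact sum_congr rfl fun A hA => two_of A (hU A hA) z

theorem row_even (U : Finset (Finset (Fin 7))) (hU : ∀ A ∈ U, A.card = 3) (z : Fin 7) :
    Even (∑ v ∈ univ.erase z, lam U z v) := by
  rw [row U hU z]
  refine Finset.even_sum _ fun A _ => ?_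
  split_ifs
  · exact ⟨1, rfl⟩
  · exact ⟨0, rfl⟩

theorem row_total (U : Finset (Finset (Fin 7))) (hU : ∀ A ∈ U, A.card = 3) (hc : U.card = 7) :
    ∑ z, ∑ v ∈ univ.erase z, lam U z v = 42 := by
  rw [sum_congr rfl fun z _ => row U hU z, sum_comm, sum_congr rfl fun A hA => three_of A (hU A hA)]
  simp [hc]

theorem key (U F : Finset (Finset (Fin 7))) (hU : ∀ A ∈ U, A.card = 3) (hF : ∀ B ∈ F, B.card = 4)
    (h4 : ∀ B : Finset (Fin 7), B.card = 4 → B ∈ F ∨ ∃ A ∈ U, A ⊆ B)
    (h34 : ∀ A ∈ U, ∀ B ∈ F, ¬ A ⊆ B) (cU : U.card = 7) (cF : F.card = 8) : False := by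
  classical
  set Q := powersetCard 4 (univ : Finset (Fin 7)) with hQ
  have memQ : ∀ B : Finset (Fin 7), B ∈ Q ↔ B.card = 4 := fun B => by
    rw [hQ, mem_powersetCard]; simp
  let c : Finset (Fin 7) → ℕ := fun B => (U.filter (· ⊆ B)).card
  have hsum : ∑ B ∈ Q, c B = 28 := by
    have h1 : ∑ B ∈ Q, c B = ∑ B ∈ Q, ∑ A ∈ U, if A ⊆ B then 1 else 0 :=
      sum_congr rfl fun B _ => by simp only [c, card_filter]
    rw [h1, sum_comm, sum_congr rfl fun A hA => sup4 A (hU A hA)]
    simp [cU]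
  have hFQ : F ⊆ Q := fun B hB => (memQ B).mpr (hF B hB)
  have hFc : ∀ B ∈ F, c B = 0 := by
    intro B hB
    simp only [c, card_eq_zero, filter_eq_empty_iff]
    exact fun A hA => h34 A hA B hB
  have hsum2 : ∑ B ∈ Q \ F, c B = 28 := by
    have h1 := sum_sdiff (f := c) hFQ
    have h2 : ∑ B ∈ F, c B = 0 := sum_eq_zero hFc
    omega
  have hcard : (Q \ F).card = 27 := by
    rw [card_sdiff_of_subset hFQ, cF, hQ, card4]
  have hpos : ∀ B ∈ Q \ F, 1 ≤ c B := by
    intro B hB
    rw [mem_sdiff, memQ] at hB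
    rcases h4 B hB.1 with h | ⟨A, hA, hAB⟩
    · exact absurd h hB.2
    · exact card_pos.mpr ⟨A, mem_filter.mpr ⟨hA, hAB⟩⟩
  obtain ⟨B0, hB0, hcB0⟩ : ∃ B0 ∈ Q \ F, 2 ≤ c B0 := by
    by_contra hcon
    push Not at hcon
    have := sum_le_card_nsmul (Q \ F) c 1 (fun B hB => by have := hcon B hB; omega)
    rw [hcard, hsum2] at this
    simp at this
  have hle : ∀ W : Finset (Finset (Fin 7)), W ⊆ Q \ F → ∑ B ∈ W, c B ≤ W.card + 1 := by
    intro W hW
    have h1 : ∑ B ∈ (Q \ F) \ W, c B + ∑ B ∈ W, c B = ∑ B ∈ Q \ F, c B := sum_sdiff hW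
    have h2 : ((Q \ F) \ W).card • 1 ≤ ∑ B ∈ (Q \ F) \ W, c B :=
      card_nsmul_le_sum ((Q \ F) \ W) c 1 (fun B hB => hpos B (mem_sdiff.mp hB).1)
    rw [card_sdiff_of_subset hW, hcard, smul_eq_mul, mul_one] at h2
    have h3 := card_le_card hW
    omega
  have hcB0' : c B0 ≤ 2 := by
    have := hle {B0} (singleton_subset_iff.mpr hB0)
    simpa using this
  have hother : ∀ B ∈ Q, B ≠ B0 → c B ≤ 1 := by
    intro B hB hne
    by_cases hBF : B ∈ F
    · rw [hFc B hBF]; omega
    · have hB' : B ∈ Q \ F := mem_sdiff.mpr ⟨hB, hBF⟩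
      have := hle {B, B0} (by
        intro X hX
        rcases mem_insert.mp hX with h | h
        · rw [h]; exact hB'
        · rw [mem_singleton.mp h]; exact hB0)
      rw [sum_pair hne, card_pair hne] at this
      omega
  -- two triples with two common points have union `B0`
  have hinter : ∀ A ∈ U, ∀ A' ∈ U, A ≠ A' → (A ∩ A').card ≤ 2 := by
    intro A hA A' hA' hne
    by_contra hlt
    push Not at hlt
    have h1 : A ∩ A' = A := eq_of_subset_of_card_le inter_subset_left (by rw [hU A hA]; omega)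
    have h2 : A ∩ A' = A' := eq_of_subset_of_card_le inter_subset_right (by rw [hU A' hA']; omega)
    exact hne (h1.symm.trans h2)
  have hunion : ∀ A ∈ U, ∀ A' ∈ U, A ≠ A' → 2 ≤ (A ∩ A').card → A ∪ A' = B0 := by
    intro A hA A' hA' hne h2
    have h1 := card_union_add_card_inter A A'
    rw [hU A hA, hU A' hA'] at h1
    have h3 := hinter A hA A' hA' hne
    have h4 : (A ∪ A').card = 4 := by omega
    by_contra hB
    have h5 := hother (A ∪ A') ((memQ _).mpr h4) hB
    have h6 : 1 < c (A ∪ A') := one_lt_card.mpr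
      ⟨A, mem_filter.mpr ⟨hA, subset_union_left⟩, A', mem_filter.mpr ⟨hA', subset_union_right⟩, hne⟩
    omega
  obtain ⟨A1, hA1, A2, hA2, hne⟩ := one_lt_card.mp (show 1 < c B0 by omega)
  rw [mem_filter] at hA1 hA2
  have hi2 : (A1 ∩ A2).card = 2 := by
    have h1 := card_union_add_card_inter A1 A2
    rw [hU A1 hA1.1, hU A2 hA2.1] at h1
    have h2 := card_le_card (union_subset hA1.2 hA2.2)
    rw [(memQ B0).mp (mem_sdiff.mp hB0).1] at h2
    have h3 := hinter A1 hA1.1 A2 hA2.1 hne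
    omega
  obtain ⟨x, y, hxy, hAxy⟩ := card_eq_two.mp hi2
  have hin : ∀ A ∈ U, A ⊆ B0 → A = A1 ∨ A = A2 := by
    intro A hA hAB
    by_contra hcon
    push Not at hcon
    have h3 : ({A, A1, A2} : Finset (Finset (Fin 7))) ⊆ U.filter (· ⊆ B0) := by
      intro X hX
      rw [mem_insert, mem_insert, mem_singleton] at hX
      rw [mem_filter]
      rcases hX with h | h | h
      · rw [h]; exact ⟨hA, hAB⟩
      · rw [h]; exact hA1
      · rw [h]; exact hA2
    have h4 := card_le_card h3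
    have h5 : ({A, A1, A2} : Finset (Finset (Fin 7))).card = 3 :=
      card_eq_three.mpr ⟨A, A1, A2, hcon.1, hcon.2, hne, rfl⟩
    have h6 : (U.filter (· ⊆ B0)).card ≤ 2 := hcB0'
    omega
  have two_le : ∀ A A' : Finset (Fin 7), ∀ a b : Fin 7, a ≠ b → (a ∈ A ∧ b ∈ A) →
      (a ∈ A' ∧ b ∈ A') → 2 ≤ (A ∩ A').card := by
    intro A A' a b hab h1 h2
    have h3 : ({a, b} : Finset (Fin 7)) ⊆ A ∩ A' := by
      intro v hv
      rw [mem_insert, mem_singleton] at hv
      rw [mem_inter]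
      rcases hv with h | h
      · rw [h]; exact ⟨h1.1, h2.1⟩
      · rw [h]; exact ⟨h1.2, h2.2⟩
    have h4 := card_le_card h3
    rwa [card_pair hab] at h4
  have hlam1 : ∀ a b, a ≠ b → ¬ ((a = x ∨ a = y) ∧ (b = x ∨ b = y)) → lam U a b ≤ 1 := by
    intro a b hab hnot
    by_contra hlt
    push Not at hlt
    obtain ⟨A, hA, A', hA', hAA'⟩ := one_lt_card.mp hlt
    rw [mem_filter] at hA hA'
    have hu := hunion A hA.1 A' hA'.1 hAA' (two_le A A' a b hab hA.2 hA'.2)
    have h1 := hin A hA.1 (by rw [← hu]; exact subset_union_left)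
    have h2 := hin A' hA'.1 (by rw [← hu]; exact subset_union_right)
    have h3 : a ∈ A1 ∩ A2 ∧ b ∈ A1 ∩ A2 := by
      simp only [mem_inter]
      rcases h1 with h1 | h1 <;> rcases h2 with h2 | h2
      · exact absurd (h1.trans h2.symm) hAA'
      · rw [h1] at hA; rw [h2] at hA'
        exact ⟨⟨hA.2.1, hA'.2.1⟩, hA.2.2, hA'.2.2⟩
      · rw [h1] at hA; rw [h2] at hA'
        exact ⟨⟨hA'.2.1, hA.2.1⟩, hA'.2.2, hA.2.2⟩
      · exact absurd (h1.trans h2.symm) hAA'
    rw [hAxy] at h3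
    simp only [mem_insert, mem_singleton] at h3
    exact hnot h3
  have hx : x ∈ A1 ∧ x ∈ A2 := by
    rw [← mem_inter, hAxy]; simp
  have hy : y ∈ A1 ∧ y ∈ A2 := by
    rw [← mem_inter, hAxy]; simp
  have hlam2 : lam U x y = 2 := by
    apply le_antisymm
    · refine le_trans (card_le_card ?_) hcB0'
      intro A hA
      rw [mem_filter] at hA ⊢
      refine ⟨hA.1, ?_⟩
      by_cases h : A = A1
      · rw [h]; exact hA1.2
      · rw [← hunion A hA.1 A1 hA1.1 h (two_le A A1 x y hxy hA.2 ⟨hx.1, hy.1⟩)]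
        exact subset_union_left
    · exact one_lt_card.mpr ⟨A1, mem_filter.mpr ⟨hA1.1, hx.1, hy.1⟩, A2,
        mem_filter.mpr ⟨hA2.1, hx.2, hy.2⟩, hne⟩
  -- the row sums
  have hR7 : ∀ a b, a ≠ b → (a = x ∨ a = y) → (b = x ∨ b = y) →
      ∑ v ∈ univ.erase a, lam U a v ≤ 6 := by
    intro a b hab ha hb
    have hb' : b ∈ univ.erase a := mem_erase.mpr ⟨hab.symm, mem_univ _⟩
    rw [← add_sum_erase _ _ hb']
    have h1 : ∑ v ∈ (univ.erase a).erase b, lam U a v ≤ 5 := by
      have := sum_le_card_nsmul ((univ.erase a).erase b) (fun v => lam U a v) 1 (by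
        intro v hv
        rw [mem_erase, mem_erase] at hv
        refine hlam1 a v hv.2.1.symm ?_
        rintro ⟨-, h⟩
        rcases ha with rfl | rfl <;> rcases hb with rfl | rfl <;> rcases h with rfl | rfl <;>
          first | exact hv.1 rfl | exact hv.2.1 rfl | exact hab rfl)
      rw [card_erase_of_mem hb', card_erase_of_mem (mem_univ _)] at this
      simpa using this
    have h2 : lam U a b = 2 := by
      rcases ha with rfl | rfl <;> rcases hb with rfl | rfl
      · exact absurd rfl hab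
      · exact hlam2
      · rw [lam_comm]; exact hlam2
      · exact absurd rfl hab
    have h3 := row_even U hU a
    rw [← add_sum_erase _ _ hb', h2] at h3
    obtain ⟨r, hr⟩ := h3
    rw [h2]
    omega
  have hR : ∀ z, ∑ v ∈ univ.erase z, lam U z v ≤ 6 := by
    intro z
    by_cases hzx : z = x
    · exact hR7 z y (by rw [hzx]; exact hxy) (Or.inl hzx) (Or.inr rfl)
    by_cases hzy : z = y
    · exact hR7 z x (by rw [hzy]; exact hxy.symm) (Or.inr hzy) (Or.inl rfl)
    have := sum_le_card_nsmul (univ.erase z) (fun v => lam U z v) 1 (by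
      intro v hv
      rw [mem_erase] at hv
      refine hlam1 z v hv.1.symm ?_
      rintro ⟨h, -⟩
      rcases h with h | h
      · exact hzx h
      · exact hzy h)
    rw [card_erase_of_mem (mem_univ _)] at this
    simpa using this
  have hR6 : ∀ z, ∑ v ∈ univ.erase z, lam U z v = 6 := by
    intro z
    by_contra hne6
    have h1 : ∑ z : Fin 7, ∑ v ∈ univ.erase z, lam U z v < ∑ _z : Fin 7, 6 :=
      sum_lt_sum (fun i _ => hR i) ⟨z, mem_univ _, lt_of_le_of_ne (hR z) hne6⟩
    rw [row_total U hU cU] at h1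
    simp at h1
  have hyx : y ∈ univ.erase x := mem_erase.mpr ⟨hxy.symm, mem_univ _⟩
  obtain ⟨w, hw, hw0⟩ : ∃ w ∈ (univ.erase x).erase y, lam U x w = 0 := by
    by_contra hcon
    push Not at hcon
    have h1 := card_nsmul_le_sum ((univ.erase x).erase y) (fun v => lam U x v) 1
      (fun v hv => Nat.one_le_iff_ne_zero.mpr (hcon v hv))
    have h2 := hR6 x
    rw [← add_sum_erase _ _ hyx, hlam2] at h2
    rw [card_erase_of_mem hyx, card_erase_of_mem (mem_univ _)] at h1
    simp only [card_univ, Fintype.card_fin, smul_eq_mul] at h1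
    omega
  rw [mem_erase, mem_erase] at hw
  have hxw : x ∈ univ.erase w := mem_erase.mpr ⟨hw.2.1.symm, mem_univ _⟩
  have h1 := hR6 w
  rw [← add_sum_erase _ _ hxw, lam_comm, hw0] at h1
  have h2 := sum_le_card_nsmul ((univ.erase w).erase x) (fun v => lam U w v) 1 (by
    intro v hv
    rw [mem_erase, mem_erase] at hv
    refine hlam1 w v hv.2.1.symm ?_
    rintro ⟨h, -⟩
    rcases h with h | h
    · exact hw.2.1 h
    · exact hw.1 h)
  rw [card_erase_of_mem hxw, card_erase_of_mem (mem_univ _)] at h2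
  simp only [card_univ, Fintype.card_fin, smul_eq_mul] at h2
  omega

/-! ### `15` is not the size of a maximal antichain in the levels 3 and 4 -/

theorem compl_card (A : Finset (Fin 7)) : Aᶜ.card = 7 - A.card := by
  rw [card_compl, Fintype.card_fin]

theorem not_fifteen : 15 ∉ S 7 3 := by
  classical
  rintro ⟨𝒜, hcard, hlev, hanti, hmax⟩
  set U := 𝒜.filter (fun X => X.card = 3) with hUdef
  set F := 𝒜.filter (fun X => X.card = 4) with hFdef
  have hUF : U.card + F.card = 15 := by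
    rw [← hcard, ← card_filter_add_card_filter_not (s := 𝒜) (fun X : Finset (Fin 7) => X.card = 3)]
    congr 2
    ext X
    simp only [hFdef, mem_filter]
    constructor
    · rintro ⟨h1, h2⟩; exact ⟨h1, by omega⟩
    · rintro ⟨h1, h2⟩; exact ⟨h1, by have := hlev X h1; omega⟩
  have hU : ∀ A ∈ U, A.card = 3 := fun A hA => (mem_filter.mp hA).2
  have hF : ∀ B ∈ F, B.card = 4 := fun B hB => (mem_filter.mp hB).2
  have h34 : ∀ A ∈ U, ∀ B ∈ F, ¬ A ⊆ B := by
    intro A hA B hB hAB
    have h1 := hU A hA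
    have h2 := hF B hB
    refine hanti (mem_coe.mpr (mem_filter.mp hA).1) (mem_coe.mpr (mem_filter.mp hB).1) ?_ hAB
    rintro rfl
    omega
  have hmax' : ∀ Y : Finset (Fin 7), Y ∉ 𝒜 → ∃ X ∈ 𝒜, X ⊆ Y ∨ Y ⊆ X := by
    intro Y hY
    by_contra hcon
    push Not at hcon
    have h1 : IsAntichain (· ⊆ ·) (insert Y (𝒜 : Set (Finset (Fin 7)))) := by
      refine hanti.insert ?_ ?_
      · intro b hb _ hsub
        exact (hcon b (mem_coe.mp hb)).1 hsub
      · intro b hb _ hsub
        exact (hcon b (mem_coe.mp hb)).2 hsub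
    have h2 := hmax h1 (Set.subset_insert _ _)
    apply hY
    rw [← mem_coe, h2]
    exact Set.mem_insert _ _
  have h4 : ∀ B : Finset (Fin 7), B.card = 4 → B ∈ F ∨ ∃ A ∈ U, A ⊆ B := by
    intro B hB
    by_cases hBA : B ∈ 𝒜
    · exact Or.inl (mem_filter.mpr ⟨hBA, hB⟩)
    · right
      obtain ⟨X, hX, h⟩ := hmax' B hBA
      have hne : X ≠ B := by rintro rfl; exact hBA hX
      rcases h with h | h
      · have h5 := card_lt_card (Finset.ssubset_iff_subset_ne.mpr ⟨h, hne⟩)
        have h6 := hlev X hX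
        exact ⟨X, mem_filter.mpr ⟨hX, by omega⟩, h⟩
      · have h5 := card_lt_card (Finset.ssubset_iff_subset_ne.mpr ⟨h, hne.symm⟩)
        have h6 := hlev X hX
        omega
  have h3 : ∀ A : Finset (Fin 7), A.card = 3 → A ∈ U ∨ ∃ B ∈ F, A ⊆ B := by
    intro A hA
    by_cases hAA : A ∈ 𝒜
    · exact Or.inl (mem_filter.mpr ⟨hAA, hA⟩)
    · right
      obtain ⟨X, hX, h⟩ := hmax' A hAA
      have hne : X ≠ A := by rintro rfl; exact hAA hX
      rcases h with h | h
      · have h5 := card_lt_card (Finset.ssubset_iff_subset_ne.mpr ⟨h, hne⟩)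
        have h6 := hlev X hX
        omega
      · have h5 := card_lt_card (Finset.ssubset_iff_subset_ne.mpr ⟨h, hne.symm⟩)
        have h6 := hlev X hX
        exact ⟨X, mem_filter.mpr ⟨hX, by omega⟩, h⟩
  -- the counting bounds
  have hb1 : 35 ≤ F.card + 4 * U.card := by
    have h1 : powersetCard 4 (univ : Finset (Fin 7)) ⊆
        F ∪ U.biUnion (fun A => (powersetCard 4 univ).filter (A ⊆ ·)) := by
      intro B hB
      have hB4 : B.card = 4 := (mem_powersetCard.mp hB).2
      rw [mem_union, mem_biUnion]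
      rcases h4 B hB4 with h | ⟨A, hA, h⟩
      · exact Or.inl h
      · exact Or.inr ⟨A, hA, mem_filter.mpr ⟨hB, h⟩⟩
    have h2 := (card_le_card h1).trans (card_union_le _ _)
    have h3 : (U.biUnion (fun A => (powersetCard 4 univ).filter (A ⊆ ·))).card ≤ U.card * 4 := by
      refine card_biUnion_le_card_mul _ _ _ fun A hA => le_of_eq ?_
      rw [card_filter]
      exact sup4 A (hU A hA)
    rw [card4] at h2
    omega
  have sub3 : ∀ B : Finset (Fin 7), B.card = 4 → (powersetCard 3 B).card = 4 := by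
    intro B hB
    rw [card_powersetCard, hB]
    rfl
  have card3 : (powersetCard 3 (univ : Finset (Fin 7))).card = 35 := by decide +kernel
  have hb2 : 35 ≤ U.card + 4 * F.card := by
    have h1 : powersetCard 3 (univ : Finset (Fin 7)) ⊆
        U ∪ F.biUnion (fun B => powersetCard 3 B) := by
      intro A hA
      have hA3 : A.card = 3 := (mem_powersetCard.mp hA).2
      rw [mem_union, mem_biUnion]
      rcases h3 A hA3 with h | ⟨B, hB, h⟩
      · exact Or.inl h
      · exact Or.inr ⟨B, hB, mem_powersetCard.mpr ⟨h, hA3⟩⟩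
    have h2 := (card_le_card h1).trans (card_union_le _ _)
    have h3 : (F.biUnion (fun B => powersetCard 3 B)).card ≤ F.card * 4 :=
      card_biUnion_le_card_mul _ _ _ fun B hB => le_of_eq (sub3 B (hF B hB))
    rw [card3] at h2
    omega
  by_cases hU7 : U.card = 7
  · exact key U F hU hF h4 h34 hU7 (by omega)
  · have hF7 : F.card = 7 := by omega
    have hU8 : U.card = 8 := by omega
    refine key (F.image (·ᶜ)) (U.image (·ᶜ)) ?_ ?_ ?_ ?_ ?_ ?_
    · intro A hA
      obtain ⟨B, hB, rfl⟩ := mem_image.mp hA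
      rw [compl_card, hF B hB]
    · intro B hB
      obtain ⟨A, hA, rfl⟩ := mem_image.mp hB
      rw [compl_card, hU A hA]
    · intro B hB
      rcases h3 Bᶜ (by rw [compl_card, hB]) with h | ⟨C, hC, h⟩
      · exact Or.inl (mem_image.mpr ⟨Bᶜ, h, compl_compl B⟩)
      · exact Or.inr ⟨Cᶜ, mem_image_of_mem _ hC, by
          have := compl_subset_compl.mpr h
          rwa [compl_compl] at this⟩
    · intro A hA B hB
      obtain ⟨C, hC, rfl⟩ := mem_image.mp hA
      obtain ⟨D, hD, rfl⟩ := mem_image.mp hB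
      intro h
      exact h34 D hD C hC (compl_subset_compl.mp h)
    · rw [card_image_of_injective _ compl_injective, hF7]
    · rw [card_image_of_injective _ compl_injective, hU8]

/-- The lines of the Fano plane and their complements. -/
def fano : Finset (Finset (Fin 7)) :=
  {{0, 1, 2}, {0, 3, 4}, {0, 5, 6}, {1, 3, 5}, {1, 4, 6}, {2, 3, 6}, {2, 4, 5},
    {3, 4, 5, 6}, {1, 2, 5, 6}, {1, 2, 3, 4}, {0, 2, 4, 6}, {0, 2, 3, 5}, {0, 1, 4, 5},
    {0, 1, 3, 6}}

theorem fourteen : 14 ∈ S 7 3 := by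
  refine ⟨fano, by decide +kernel, by decide +kernel, ?_, ?_⟩
  · have h : ∀ X ∈ fano, ∀ Y ∈ fano, X ≠ Y → ¬ X ⊆ Y := by decide +kernel
    intro X hX Y hY hne
    exact h X (mem_coe.mp hX) Y (mem_coe.mp hY) hne
  · intro t ht hsub
    refine Set.Subset.antisymm hsub fun Y hY => ?_
    have h : ∀ Y : Finset (Fin 7), Y ∉ fano → ∃ X ∈ fano, X ⊆ Y ∨ Y ⊆ X := by decide +kernel
    by_contra hYn
    rw [mem_coe] at hYn
    obtain ⟨X, hX, hXY⟩ := h Y hYn
    have hne : X ≠ Y := by rintro rfl; exact hYn hX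
    rcases hXY with h1 | h1
    · exact ht (hsub (mem_coe.mpr hX)) hY hne h1
    · exact ht hY (hsub (mem_coe.mpr hX)) hne.symm h1

theorem T_7_3 : T 7 3 = 29 := by
  unfold T
  have h1 : (((7 : ℕ) : ℚ) - (3 : ℕ)) / 2 = ((2 : ℤ) : ℚ) := by norm_num
  rw [h1, Int.ceil_intCast]
  decide

/-- **MP_6c6cee_co, Q1 (disproof).** `14` belongs to `S(7,3)` and `T(7,3) = 29`, but `15` does not
belong to `S(7,3)`; so it is not true that for all `n, l` with `3 ≤ l ≤ ⌈n/2⌉` all the integers
from `min S(n,l)` to `T(n,l)` belong to `S(n,l)`. -/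
theorem result : (14 ∈ S 7 3 ∧ 15 ∉ S 7 3 ∧ T 7 3 = 29) ∧
    ¬ ∀ n l m : ℕ, 3 ≤ l → (l : ℤ) ≤ ⌈(n : ℚ) / 2⌉ → sInf (S n l) ≤ m → (m : ℤ) ≤ T n l →
      m ∈ S n l := by
  refine ⟨⟨fourteen, not_fifteen, T_7_3⟩, fun h => ?_⟩
  refine not_fifteen (h 7 3 15 le_rfl ?_ ?_ ?_)
  · refine Int.le_ceil_iff.mpr ?_
    norm_num
  · exact (Nat.sInf_le fourteen).trans (by norm_num)
  · rw [T_7_3]; norm_num

end Pool.Agent.Results.MP_6c6cee_co.FlatAntichainGap
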